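import Pool.Agent.Lib.MP_210493_lc.DM.Main

/-! The Hadwiger number of the excluded minors of the underlying class is bounded by the size of
every excluded digraph: a large complete graph contains the diamond graph of `H`. -/

namespace Pool.Agent.Lib.MP_210493_lc

open Set

variable {V' E' V E : Type}

/-- The underlying class is closed under minors. -/
theorem InClass.minor {A : Set Code} {G' : Gra V' E'} {G : Gra V E} (hG : InClass A G)
    (hm : GMinor G' G) : InClass A G' := by
  obtain ⟨D, hD, hA⟩ := hG
  obtain ⟨β, ι, h⟩ := hm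
  have h1 : ∀ e, ∃ a b : V', β (D (ι e)).1 = some a ∧ β (D (ι e)).2 = some b ∧
      G' e = s(a, b) := by
    intro e
    have h2 := h.ends e
    rw [← hD] at h2
    change s(β (D (ι e)).1, β (D (ι e)).2) = Sym2.map some (G' e) at h2
    obtain ⟨⟨c, d⟩, hcd⟩ := Quot.exists_rep (G' e)
    change s(c, d) = G' e at hcd
    rw [← hcd, Sym2.map_mk, Sym2.eq_iff] at h2
    rcases h2 with ⟨h3, h4⟩ | ⟨h3, h4⟩
    · exact ⟨c, d, h3, h4, hcd.symm⟩
    · exact ⟨d, c, h3, h4, hcd.symm.trans Sym2.eq_swap⟩
  choose a b ha hb hab using h1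
  have hund : und (fun e => (a e, b e)) = G' := by
    funext e
    exact (hab e).symm
  refine ⟨fun e => (a e, b e), hund, ?_⟩
  intro H hH hHm
  refine hA H hH (hHm.trans ⟨β, ι, ?_, fun e => ⟨ha e, hb e⟩⟩)
  rw [hund, hD]
  exact h

theorem completeGra_injective (s : ℕ) : Function.Injective (completeGra s) := by
  rintro ⟨⟨i, j⟩, hlt⟩ ⟨⟨i', j'⟩, hlt'⟩ h
  simp only at hlt hlt'
  change s(i, j) = s(i', j') at h
  rw [Sym2.eq_iff] at h
  rcases h with ⟨h4, h5⟩ | ⟨h4, h5⟩
  · subst h4 h5; rfl
  · subst h4 h5
    exact absurd (hlt.trans hlt') (lt_irrefl _)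

theorem exists_completeGra {s : ℕ} {x y : Fin s} (h : x ≠ y) : ∃ e, completeGra s e = s(x, y) := by
  rcases lt_or_gt_of_ne h with h | h
  · exact ⟨⟨(x, y), h⟩, rfl⟩
  · exact ⟨⟨(y, x), h⟩, Sym2.eq_swap⟩

/-- the edges used for the diamond graph inside a complete graph -/
def keptPair (D : Dig V E) : E × Fin 5 → (V ⊕ E × Fin 3) × (V ⊕ E × Fin 3) := fun p =>
  match p.2 with
  | 0 => (Sum.inl (D p.1).1, Sum.inr (p.1, 0))
  | 1 => (Sum.inl (D p.1).1, Sum.inr (p.1, 1))
  | 2 => (Sum.inr (p.1, 0), Sum.inr (p.1, 1))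
  | 3 => (Sum.inr (p.1, 2), Sum.inr (p.1, 0))
  | 4 => (Sum.inr (p.1, 2), Sum.inr (p.1, 1))

theorem keptPair_ne (D : Dig V E) (p : E × Fin 5) : (keptPair D p).1 ≠ (keptPair D p).2 := by
  obtain ⟨e, k⟩ := p
  fin_cases k <;> simp [keptPair]

theorem keptPair_inj (D : Dig V E) (p q : E × Fin 5)
    (h : s((keptPair D p).1, (keptPair D p).2) = s((keptPair D q).1, (keptPair D q).2)) :
    p = q := by
  obtain ⟨e, k⟩ := p
  obtain ⟨e', k'⟩ := q
  have : ∀ k k' : Fin 5, s((keptPair D (e, k)).1, (keptPair D (e, k)).2) =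
      s((keptPair D (e', k')).1, (keptPair D (e', k')).2) → (e, k) = (e', k') := by
    intro k k'
    fin_cases k <;> fin_cases k' <;> simp [keptPair]
  exact this k k' h

/-- the edge between the head of `e` and the third new vertex is not used -/
theorem keptPair_not (D : Dig V E) (p : E × Fin 5) (e : E) (v : V) :
    s((keptPair D p).1, (keptPair D p).2) ≠ s(Sum.inl v, Sum.inr (e, 2)) := by
  obtain ⟨e', k⟩ := p
  fin_cases k <;> simp [keptPair]

/-- A complete graph on `v + 3e` vertices contains the diamond graph. -/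
theorem dia_minor_complete [Finite V] [Finite E] (D : Dig V E) {s : ℕ}
    (hs : Nat.card V + 3 * Nat.card E ≤ s) : GMinor (dia D) (completeGra s) := by
  classical
  have := Fintype.ofFinite V
  have := Fintype.ofFinite E
  have hcard : Fintype.card (V ⊕ E × Fin 3) ≤ Fintype.card (Fin s) := by
    simp only [Fintype.card_sum, Fintype.card_prod, Fintype.card_fin]
    simp only [Nat.card_eq_fintype_card] at hs
    omega
  obtain ⟨j⟩ := Function.Embedding.nonempty_of_card_le hcard
  -- the contraction of the new vertices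
  let γ : V ⊕ E × Fin 3 → V ⊕ E × Bool := fun z =>
    match z with
    | Sum.inl v => Sum.inl v
    | Sum.inr (e, 0) => Sum.inr (e, false)
    | Sum.inr (e, 1) => Sum.inr (e, true)
    | Sum.inr (e, 2) => Sum.inl (D e).2
  let β : Fin s → Option (V ⊕ E × Bool) := fun z =>
    if h : ∃ t, j t = z then some (γ h.choose) else none
  have hβ : ∀ t, β (j t) = some (γ t) := by
    intro t
    have h : ∃ t', j t' = j t := ⟨t, rfl⟩
    have h1 : h.choose = t := j.injective h.choose_spec
    simp only [β, dif_pos h, h1]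
  have hβ' : ∀ z c, β z = some c → ∃ t, j t = z ∧ γ t = c := by
    intro z c hz
    by_cases h : ∃ t, j t = z
    · obtain ⟨t, rfl⟩ := h
      rw [hβ] at hz
      exact ⟨t, rfl, Option.some.inj hz⟩
    · simp only [β, dif_neg h] at hz
      exact absurd hz (by simp)
  have hedge : ∀ p : E × Fin 5, ∃ e, completeGra s e =
      s(j (keptPair D p).1, j (keptPair D p).2) := fun p =>
    exists_completeGra (fun h => keptPair_ne D p (j.injective h))
  choose ι hι using hedge
  have hγ : ∀ p : E × Fin 5, s(γ (keptPair D p).1, γ (keptPair D p).2) = dia D p := by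
    rintro ⟨e, k⟩
    fin_cases k <;> rfl
  have hιinj : ∀ p (a b : V ⊕ E × Fin 3), completeGra s (ι p) = s(j a, j b) →
      s((keptPair D p).1, (keptPair D p).2) = s(a, b) := by
    intro p a b h
    rw [hι p] at h
    exact Sym2.map.injective j.injective (by rw [Sym2.map_mk, Sym2.map_mk]; exact h)
  refine ⟨β, ι, ⟨?_, ?_, ?_, ?_⟩⟩
  · intro p q hpq
    apply keptPair_inj D p q
    apply hιinj
    rw [hpq, hι q]
  · intro p
    rw [hι p, Sym2.map_mk, hβ, hβ, ← hγ p, Sym2.map_mk]
  · rintro (v | ⟨e, y⟩)
    · exact ⟨j (Sum.inl v), hβ _⟩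
    · cases y
      · exact ⟨j (Sum.inr (e, 0)), hβ _⟩
      · exact ⟨j (Sum.inr (e, 1)), hβ _⟩
  · intro x y c hx hy
    -- every branch set is a star
    have hto : ∀ z, β z = some c → ∃ z₀, (∀ v, c = Sum.inl v → z₀ = j (Sum.inl v)) ∧
        (∀ e, c = Sum.inr (e, false) → z₀ = j (Sum.inr (e, 0))) ∧
        (∀ e, c = Sum.inr (e, true) → z₀ = j (Sum.inr (e, 1))) ∧
        Joined (completeGra s) (range ι) {z | β z = some c} z z₀ := by
      intro z hz
      obtain ⟨t, rfl, ht⟩ := hβ' z c hz
      rcases t with v | ⟨e, k⟩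
      · have ht' : c = Sum.inl v := ht.symm
        subst ht'
        refine ⟨j (Sum.inl v), ?_, ?_, ?_, Relation.ReflTransGen.refl⟩
        · intro v' hv'
          rw [Sum.inl.inj hv']
        · intro e he; exact absurd he (by simp)
        · intro e he; exact absurd he (by simp)
      · have hk : ∀ k : Fin 3, k = 0 ∨ k = 1 ∨ k = 2 := by decide
        rcases hk k with rfl | rfl | rfl
        · have ht' : c = Sum.inr (e, false) := ht.symm
          subst ht'
          refine ⟨j (Sum.inr (e, 0)), ?_, ?_, ?_, Relation.ReflTransGen.refl⟩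
          · intro v hv; exact absurd hv (by simp)
          · intro e' he'
            have he2 : e = e' := congrArg Prod.fst (Sum.inr.inj he')
            rw [he2]
          · intro e' he'; exact absurd he' (by simp)
        · have ht' : c = Sum.inr (e, true) := ht.symm
          subst ht'
          refine ⟨j (Sum.inr (e, 1)), ?_, ?_, ?_, Relation.ReflTransGen.refl⟩
          · intro v hv; exact absurd hv (by simp)
          · intro e' he'; exact absurd he' (by simp)
          · intro e' he'
            have he2 : e = e' := congrArg Prod.fst (Sum.inr.inj he')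
            rw [he2]
        · have ht' : c = Sum.inl (D e).2 := ht.symm
          subst ht'
          refine ⟨j (Sum.inl (D e).2), ?_, ?_, ?_, ?_⟩
          · intro v hv
            rw [Sum.inl.inj hv]
          · intro e' he'; exact absurd he' (by simp)
          · intro e' he'; exact absurd he' (by simp)
          · obtain ⟨e₀, he₀⟩ := exists_completeGra (s := s) (x := j (Sum.inr (e, 2)))
              (y := j (Sum.inl (D e).2)) (fun h => by
                have := j.injective h
                exact absurd this (by simp))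
            refine Joined.single (e := e₀) ?_ he₀ hz (hβ _)
            rintro ⟨p, hp⟩
            have h1 := hιinj p (Sum.inl (D e).2) (Sum.inr (e, 2))
              (by rw [hp, he₀]; exact Sym2.eq_swap)
            exact keptPair_not D p e _ h1
    obtain ⟨z₁, h1, h2, h3, h4⟩ := hto x hx
    obtain ⟨z₂, h5, h6, h7, h8⟩ := hto y hy
    have hz : z₁ = z₂ := by
      rcases c with v | ⟨e, b⟩
      · rw [h1 v rfl, h5 v rfl]
      · cases b
        · rw [h2 e rfl, h6 e rfl]
        · rw [h3 e rfl, h7 e rfl]
    rw [hz] at h4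
    exact h4.trans h8.symm

theorem completeGra_succ (s : ℕ) : GMinor (completeGra s) (completeGra (s + 1)) := by
  classical
  refine ⟨fun z => if h : (z : ℕ) < s then some ⟨z, h⟩ else none,
    fun e => ⟨(e.1.1.castSucc, e.1.2.castSucc), by
      simpa using e.2⟩, ⟨?_, ?_, ?_, ?_⟩⟩
  · rintro ⟨⟨i, j⟩, hlt⟩ ⟨⟨i', j'⟩, hlt'⟩ h
    have h1 := congrArg (fun q : {p : Fin (s + 1) × Fin (s + 1) // p.1 < p.2} => q.1) h
    simp only [Prod.mk.injEq, Fin.castSucc_inj] at h1
    obtain ⟨h2, h3⟩ := h1
    subst h2 h3
    rfl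
  · rintro ⟨⟨i, j⟩, hlt⟩
    simp only [completeGra, Sym2.map_mk, Fin.val_castSucc, Fin.is_lt, dif_pos, Fin.eta]
  · intro v
    exact ⟨v.castSucc, by simp⟩
  · intro x y v hx hy
    have hx' : x = y := by
      by_cases h1 : (x : ℕ) < s
      · by_cases h2 : (y : ℕ) < s
        · simp only [dif_pos h1, Option.some.injEq] at hx
          simp only [dif_pos h2, Option.some.injEq] at hy
          apply Fin.ext
          have := congrArg Fin.val (hx.trans hy.symm)
          simpa using this
        · simp only [dif_neg h2] at hy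
          exact absurd hy (by simp)
      · simp only [dif_neg h1] at hx
        exact absurd hx (by simp)
    subst hx'
    exact Relation.ReflTransGen.refl

theorem completeGra_mono {s s' : ℕ} (h : s ≤ s') : GMinor (completeGra s) (completeGra s') := by
  induction h with
  | refl => exact GMinor.refl _
  | step _ ih => exact ih.trans (completeGra_succ _)

/-- No excluded minor of the underlying class has a clique minor with more than `v(H) + 3 e(H)`
vertices, `H ∈ A`. -/
theorem clique_bound {A : Set Code} {H : Code} (hH : H ∈ A) [Finite V] [Finite E] {G : Gra V E}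
    (hG : Excluded A G) (s : ℕ) (hs : H.v + 3 * H.e < s) : ¬ GMinor (completeGra s) G := by
  intro hm
  have h1 : GMinor (dia H.arc) (completeGra (H.v + 3 * H.e)) := by
    apply dia_minor_complete
    simp
  have h2 : GMinor (completeGra (H.v + 3 * H.e)) G := (completeGra_mono hs.le).trans hm
  have h3 : ¬ InClass A (completeGra (H.v + 3 * H.e)) := fun h => not_inClass_dia hH (h.minor h1)
  apply h3
  apply hG.2 _ _ _ h2
  have h4 : GMinor (completeGra (H.v + 3 * H.e + 1)) G := (completeGra_mono hs).trans hm
  have h5 := h4.card_le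
  have h6 := (completeGra_succ (H.v + 3 * H.e))
  obtain ⟨β, ι, h6⟩ := h6
  have h7 := Nat.card_le_card_of_injective ι h6.inj
  rw [Nat.card_fin] at h5 ⊢
  omega

/-- An excluded minor with a `dia H` minor, `H ∈ A`, has size `v(H) + 7 e(H)`. -/
theorem size_of_dia_minor {A : Set Code} {H : Code} (hH : H ∈ A) [Finite V] [Finite E]
    {G : Gra V E} (hG : Excluded A G) (hm : GMinor (dia H.arc) G) :
    Nat.card V + Nat.card E = H.v + 7 * H.e := by
  have h1 := hm.card_le
  rw [card_dia H] at h1
  rcases lt_or_eq_of_le h1 with h2 | h2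
  · exfalso
    apply not_inClass_dia hH
    apply hG.2 _ _ _ hm
    rw [card_dia H]
    exact h2
  · exact h2.symm

end Pool.Agent.Lib.MP_210493_lc
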