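import Pool.Agent.Lib.MP_210493_lc.DG.Basic

/-! The diamond graph of a digraph: every arc is replaced by a diamond (a complete graph on four
vertices minus one edge, whose missing edge joins the two ends of the arc).  Every orientation of
the diamond graph of `D` has `D` as a minor. -/

namespace Pool.Agent.Lib.MP_210493_lc

open Set

/-- The diamond graph of `D`: every arc `e` from `u` to `v` is replaced by two new vertices
`a = (e, false)` and `b = (e, true)` and the five edges `ua, ub, ab, av, bv`. -/
def dia {V E : Type} (D : Dig V E) : Gra (V ⊕ E × Bool) (E × Fin 5) := fun p =>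
  match p.2 with
  | 0 => s(Sum.inl (D p.1).1, Sum.inr (p.1, false))
  | 1 => s(Sum.inl (D p.1).1, Sum.inr (p.1, true))
  | 2 => s(Sum.inr (p.1, false), Sum.inr (p.1, true))
  | 3 => s(Sum.inl (D p.1).2, Sum.inr (p.1, false))
  | 4 => s(Sum.inl (D p.1).2, Sum.inr (p.1, true))

variable {V E : Type}

theorem dia_tail (D : Dig V E) (e : E) (y : Bool) :
    ∃ k : Fin 5, k ≠ 2 ∧ dia D (e, k) = s(Sum.inl (D e).1, Sum.inr (e, y)) := by
  cases y
  · exact ⟨0, by decide, rfl⟩
  · exact ⟨1, by decide, rfl⟩

theorem dia_head (D : Dig V E) (e : E) (y : Bool) :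
    ∃ k : Fin 5, k ≠ 2 ∧ dia D (e, k) = s(Sum.inl (D e).2, Sum.inr (e, y)) := by
  cases y
  · exact ⟨3, by decide, rfl⟩
  · exact ⟨4, by decide, rfl⟩

/-- Every orientation of the diamond graph of `D` has `D` as a minor. -/
theorem dminor_of_und_eq_dia (D : Dig V E) (D' : Dig (V ⊕ E × Bool) (E × Fin 5))
    (h : und D' = dia D) : DMinor D D' := by
  classical
  -- the orientation of the middle edges
  have hmid : ∀ e, ∃ x : Bool, D' (e, 2) = (Sum.inr (e, x), Sum.inr (e, !x)) := by
    intro e
    have h1 : und D' (e, 2) = dia D (e, 2) := by rw [h]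
    change s((D' (e, 2)).1, (D' (e, 2)).2) = s(Sum.inr (e, false), Sum.inr (e, true)) at h1
    rw [Sym2.eq_iff] at h1
    rcases h1 with ⟨h1, h2⟩ | ⟨h1, h2⟩
    · exact ⟨false, Prod.ext h1 h2⟩
    · exact ⟨true, Prod.ext h1 h2⟩
  choose x hx using hmid
  let β : V ⊕ E × Bool → Option V := fun z =>
    match z with
    | Sum.inl v => some v
    | Sum.inr (e, y) => if y = x e then some (D e).1 else some (D e).2
  have hβl : ∀ v, β (Sum.inl v) = some v := fun v => rfl
  have hβr : ∀ e y, β (Sum.inr (e, y)) = if y = x e then some (D e).1 else some (D e).2 :=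
    fun e y => rfl
  let ι : E → E × Fin 5 := fun e => (e, 2)
  have hnot : ∀ (e : E) (k : Fin 5), k ≠ 2 → (e, k) ∉ range ι := by
    rintro e k hk ⟨e', he'⟩
    exact hk (Prod.ext_iff.1 he').2.symm
  have hto : ∀ (z : V ⊕ E × Bool) (v : V), β z = some v →
      Joined (und D') (range ι) {z | β z = some v} z (Sum.inl v) := by
    rintro (w | ⟨e, y⟩) v hz
    · have : w = v := Option.some.inj hz
      subst this
      exact Relation.ReflTransGen.refl
    · have hz' := hz
      rw [hβr] at hz
      by_cases hy : y = x e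
      · rw [if_pos hy] at hz
        have hv : (D e).1 = v := Option.some.inj hz
        obtain ⟨k, hk, hk'⟩ := dia_tail D e y
        refine Joined.single (hnot e k hk) ?_ hz' (hβl v)
        rw [h, hk', hv]
        exact Sym2.eq_swap
      · rw [if_neg hy] at hz
        have hv : (D e).2 = v := Option.some.inj hz
        obtain ⟨k, hk, hk'⟩ := dia_head D e y
        refine Joined.single (hnot e k hk) ?_ hz' (hβl v)
        rw [h, hk', hv]
        exact Sym2.eq_swap
  refine ⟨β, ι, ⟨?_, ?_, ?_, ?_⟩, ?_⟩
  · intro e e' hee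
    exact (Prod.ext_iff.1 hee).1
  · intro e
    change Sym2.map β s((D' (e, 2)).1, (D' (e, 2)).2) = Sym2.map some s((D e).1, (D e).2)
    rw [Sym2.map_mk, Sym2.map_mk, hx e]
    simp only [hβr, if_true]
    rw [if_neg (by cases x e <;> decide)]
  · intro v
    exact ⟨Sum.inl v, rfl⟩
  · intro z z' v hz hz'
    exact (hto z v hz).trans (hto z' v hz').symm
  · intro e
    change β (D' (e, 2)).1 = some (D e).1 ∧ β (D' (e, 2)).2 = some (D e).2
    rw [hx e]
    simp only [hβr, if_true, true_and]
    rw [if_neg (by cases x e <;> decide)]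

/-- the diamond graph is not in the class if `D` is excluded -/
theorem not_inClass_dia {A : Set Code} {H : Code} (hH : H ∈ A) : ¬ InClass A (dia H.arc) := by
  rintro ⟨D, hD, hA⟩
  exact hA H hH (dminor_of_und_eq_dia H.arc D hD)

/-- Every finite graph outside the class has an excluded minor. -/
theorem exists_excluded {A : Set Code} (V E : Type) [Finite V] [Finite E] (G : Gra V E)
    (hG : ¬ InClass A G) : ∃ (V' E' : Type) (_ : Finite V') (_ : Finite E') (G' : Gra V' E'),
      Excluded A G' ∧ GMinor G' G := by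
  induction hn : Nat.card V + Nat.card E using Nat.strong_induction_on generalizing V E with
  | _ n ih =>
    by_cases hex : Excluded A G
    · exact ⟨V, E, inferInstance, inferInstance, G, hex, GMinor.refl G⟩
    · have : ∃ (V' E' : Type) (_ : Finite V') (_ : Finite E') (G' : Gra V' E'), GMinor G' G ∧
          Nat.card V' + Nat.card E' < Nat.card V + Nat.card E ∧ ¬ InClass A G' := by
        by_contra hcon
        apply hex
        refine ⟨hG, ?_⟩
        intro V' E' _ _ G' hm hlt
        by_contra hin
        exact hcon ⟨V', E', inferInstance, inferInstance, G', hm, hlt, hin⟩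
      obtain ⟨V', E', _, _, G', hm, hlt, hin⟩ := this
      obtain ⟨V'', E'', h1, h2, G'', h3, h4⟩ := ih _ (hn ▸ hlt) V' E' G' hin rfl
      exact ⟨V'', E'', h1, h2, G'', h3, h4.trans hm⟩

/-- Every graph has an orientation. -/
theorem exists_und (G : Gra V E) : ∃ D : Dig V E, und D = G := by
  have : ∀ e, ∃ p : V × V, s(p.1, p.2) = G e := by
    intro e
    obtain ⟨p, hp⟩ := Quot.exists_rep (G e)
    exact ⟨p, hp⟩
  choose D hD using this
  exact ⟨D, funext hD⟩

/-- An excluded minor contains the underlying graph of a member of `A`. -/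
theorem exists_mem_of_not_inClass {A : Set Code} {G : Gra V E} (hG : ¬ InClass A G) :
    ∃ H ∈ A, GMinor (und H.arc) G := by
  obtain ⟨D, hD⟩ := exists_und G
  by_contra hcon
  apply hG
  refine ⟨D, hD, fun H hH hm => hcon ⟨H, hH, ?_⟩⟩
  rw [← hD]
  exact hm.und

theorem card_dia (H : Code) :
    Nat.card (Fin H.v ⊕ Fin H.e × Bool) + Nat.card (Fin H.e × Fin 5) = H.v + 7 * H.e := by
  simp only [Nat.card_eq_fintype_card, Fintype.card_sum, Fintype.card_prod, Fintype.card_fin,
    Fintype.card_bool]
  ring

end Pool.Agent.Lib.MP_210493_lc
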