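import Pool.Agent.Lib.MP_210493_lc.DM.Dia

/-! If the diamond graph of `D` has a `K_t` minor, `t ≥ 5`, then the underlying graph of `D` has a
`K_t` minor. -/

namespace Pool.Agent.Lib.MP_210493_lc

open Set

variable {V E : Type}

/-- The complete graph on `t` vertices. -/
def completeGra (t : ℕ) : Gra (Fin t) {p : Fin t × Fin t // p.1 < p.2} := fun e => s(e.1.1, e.1.2)

theorem dia_inl_inl (D : Dig V E) (p : E × Fin 5) (v w : V) :
    dia D p ≠ s(Sum.inl v, Sum.inl w) := by
  obtain ⟨e, k⟩ := p
  intro h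
  have : ∀ k : Fin 5, dia D (e, k) ≠ s(Sum.inl v, Sum.inl w) := by
    intro k
    fin_cases k <;> simp [dia]
  exact this k h

theorem dia_inl_inr (D : Dig V E) (p : E × Fin 5) (v : V) (e : E) (y : Bool)
    (h : dia D p = s(Sum.inl v, Sum.inr (e, y))) : p.1 = e ∧ (v = (D e).1 ∨ v = (D e).2) := by
  obtain ⟨e', k⟩ := p
  have : ∀ k : Fin 5, dia D (e', k) = s(Sum.inl v, Sum.inr (e, y)) →
      e' = e ∧ (v = (D e).1 ∨ v = (D e).2) := by
    intro k
    fin_cases k <;> simp [dia] <;> rintro h1 h2 h3 <;> subst h2 <;> simp [h1]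
  exact this k h

theorem dia_inr_inr (D : Dig V E) (p : E × Fin 5) (e e' : E) (y y' : Bool)
    (h : dia D p = s(Sum.inr (e, y), Sum.inr (e', y'))) : p.1 = e ∧ e' = e ∧ y' = !y := by
  obtain ⟨e₁, k⟩ := p
  have : ∀ k : Fin 5, dia D (e₁, k) = s(Sum.inr (e, y), Sum.inr (e', y')) →
      e₁ = e ∧ e' = e ∧ y' = !y := by
    intro k
    fin_cases k <;> simp [dia]
    rintro (⟨⟨h1, h2⟩, h3, h4⟩ | ⟨⟨h1, h2⟩, h3, h4⟩)
    · subst h1 h2 h3 h4
      simp
    · subst h1 h2 h3 h4
      simp
  exact this k h

section model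

variable {t : ℕ} {D : Dig V E} {β : V ⊕ E × Bool → Option (Fin t)}
  {ι : {p : Fin t × Fin t // p.1 < p.2} → E × Fin 5}

/-- two different vertices of `K_t` are joined by a kept edge -/
theorem exists_kept (h : IsModel (completeGra t) (dia D) β ι) {i j : Fin t} (hij : i ≠ j) :
    ∃ p ∈ range ι, ∃ z w, dia D p = s(z, w) ∧ β z = some i ∧ β w = some j := by
  rcases lt_or_gt_of_ne hij with hlt | hlt
  · obtain ⟨z, w, h1, h2, h3⟩ := h.exists_ends (e := ⟨(i, j), hlt⟩) (a := i) (b := j) rfl
    exact ⟨_, ⟨_, rfl⟩, z, w, h1, h2, h3⟩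
  · obtain ⟨z, w, h1, h2, h3⟩ := h.exists_ends (e := ⟨(j, i), hlt⟩) (a := j) (b := i) rfl
    exact ⟨_, ⟨_, rfl⟩, w, z, h1.trans Sym2.eq_swap, h3, h2⟩

/-- every branch set contains a vertex of `D` -/
theorem exists_inl (ht : 5 ≤ t) (h : IsModel (completeGra t) (dia D) β ι) (i : Fin t) :
    ∃ v, β (Sum.inl v) = some i := by
  classical
  by_contra hcon
  push Not at hcon
  obtain ⟨z, hz⟩ := h.ne i
  rcases z with v | ⟨e, y⟩
  · exact hcon v hz
  -- the branch set lies in the diamond of `e`
  have hsame : ∀ z', Joined (dia D) (range ι) {z | β z = some i} (Sum.inr (e, y)) z' →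
      ∃ y', z' = Sum.inr (e, y') := by
    intro z' hz'
    induction hz' with
    | refl => exact ⟨y, rfl⟩
    | @tail b c _ hbc ih =>
      obtain ⟨y₁, rfl⟩ := ih
      obtain ⟨_, h2, p, _, h3⟩ := hbc
      rcases c with v | ⟨e', y'⟩
      · exact absurd h2 (hcon v)
      · obtain ⟨_, h5, _⟩ := dia_inr_inr D p e e' y₁ y' h3
        subst h5
        exact ⟨y', rfl⟩
  have hnb : ∀ j, j ≠ i → ∃ w, β w = some j ∧
      (w = Sum.inl (D e).1 ∨ w = Sum.inl (D e).2 ∨ w = Sum.inr (e, !y)) := by
    intro j hj
    obtain ⟨p, _, z, w, h1, h2, h3⟩ := exists_kept h (Ne.symm hj)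
    obtain ⟨y', rfl⟩ := hsame z (h.conn _ _ i hz h2)
    refine ⟨w, h3, ?_⟩
    rcases w with v | ⟨e', y''⟩
    · rw [Sym2.eq_swap] at h1
      obtain ⟨_, h5⟩ := dia_inl_inr D p v e y' h1
      rcases h5 with h5 | h5
      · exact Or.inl (by rw [h5])
      · exact Or.inr (Or.inl (by rw [h5]))
    · obtain ⟨_, h5, h6⟩ := dia_inr_inr D p e e' y' y'' h1
      subst h5
      right; right
      have hne : y'' ≠ y := by
        rintro rfl
        rw [hz] at h3
        exact hj (Option.some.inj h3).symm
      have : y'' = !y := by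
        revert hne
        cases y'' <;> cases y <;> simp
      rw [this]
  haveI : Nonempty (V ⊕ E × Bool) := ⟨Sum.inr (e, y)⟩
  choose! W hW1 hW2 using hnb
  have hcard : (Finset.univ.erase i).card ≤
      ({Sum.inl (D e).1, Sum.inl (D e).2, Sum.inr (e, !y)} : Finset (V ⊕ E × Bool)).card := by
    apply Finset.card_le_card_of_injOn W
    · intro j hj
      have hj' : j ≠ i := by simpa using hj
      have := hW2 j hj'
      simpa using this
    · intro j hj j' hj' hjj
      have hj1 : j ≠ i := by simpa using hj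
      have hj2 : j' ≠ i := by simpa using hj'
      have h1 := hW1 j hj1
      rw [hjj, hW1 j' hj2] at h1
      exact (Option.some.inj h1).symm
  have h3 : ({Sum.inl (D e).1, Sum.inl (D e).2, Sum.inr (e, !y)} :
      Finset (V ⊕ E × Bool)).card ≤ 3 := Finset.card_le_three
  rw [Finset.card_erase_of_mem (Finset.mem_univ i), Finset.card_univ, Fintype.card_fin] at hcard
  omega

/-- a branch set that meets the diamond of `e` contains an end of `e` -/
theorem end_of_inr (ht : 5 ≤ t) (h : IsModel (completeGra t) (dia D) β ι) {i : Fin t} {e : E}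
    {y : Bool} (hz : β (Sum.inr (e, y)) = some i) :
    β (Sum.inl (D e).1) = some i ∨ β (Sum.inl (D e).2) = some i := by
  obtain ⟨v, hv⟩ := exists_inl ht h i
  have key : ∀ z', Joined (dia D) (range ι) {z | β z = some i} (Sum.inr (e, y)) z' →
      (∃ y', z' = Sum.inr (e, y')) ∨
        (β (Sum.inl (D e).1) = some i ∨ β (Sum.inl (D e).2) = some i) := by
    intro z' hz'
    induction hz' with
    | refl => exact Or.inl ⟨y, rfl⟩
    | @tail b c _ hbc ih =>
      rcases ih with ⟨y₁, rfl⟩ | ih
      · obtain ⟨_, h2, p, _, h3⟩ := hbc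
        rcases c with v | ⟨e', y'⟩
        · rw [Sym2.eq_swap] at h3
          obtain ⟨_, h5⟩ := dia_inl_inr D p v e y₁ h3
          right
          rcases h5 with h5 | h5
          · left; rw [← h5]; exact h2
          · right; rw [← h5]; exact h2
        · obtain ⟨_, h5, _⟩ := dia_inr_inr D p e e' y₁ y' h3
          subst h5
          exact Or.inl ⟨y', rfl⟩
      · exact Or.inr ih
  rcases key _ (h.conn _ _ i hz hv) with ⟨y', hy'⟩ | h1
  · exact absurd hy' (by simp)
  · exact h1

/-- a vertex of the diamond of `e` (an end of an edge of the diamond) in a branch set -/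
theorem end_of_mem (ht : 5 ≤ t) (h : IsModel (completeGra t) (dia D) β ι) {i : Fin t}
    {p : E × Fin 5} {z w : V ⊕ E × Bool} (hp : dia D p = s(z, w)) (hz : β z = some i) :
    β (Sum.inl (D p.1).1) = some i ∨ β (Sum.inl (D p.1).2) = some i := by
  rcases z with v | ⟨e, y⟩
  · rcases w with v' | ⟨e', y'⟩
    · exact absurd hp (dia_inl_inl D p v v')
    · obtain ⟨h1, h2⟩ := dia_inl_inr D p v e' y' hp
      rw [h1]
      rcases h2 with h2 | h2
      · left; rw [← h2]; exact hz
      · right; rw [← h2]; exact hz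
  · have hpe : p.1 = e := by
      rcases w with v' | ⟨e', y'⟩
      · rw [Sym2.eq_swap] at hp
        exact (dia_inl_inr D p v' e y hp).1
      · exact (dia_inr_inr D p e e' y y' hp).1
    rw [hpe]
    exact end_of_inr ht h hz

theorem isModel_of_dia (ht : 5 ≤ t) (h : IsModel (completeGra t) (dia D) β ι) :
    IsModel (completeGra t) (und D) (fun v => β (Sum.inl v)) (fun e => (ι e).1) := by
  have hends : ∀ e, Sym2.map (fun v => β (Sum.inl v)) (und D (ι e).1) =
      Sym2.map some (completeGra t e) := by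
    rintro ⟨⟨i, j⟩, hlt⟩
    have hij : i ≠ j := ne_of_lt hlt
    obtain ⟨z, w, h1, h2, h3⟩ := h.exists_ends (e := ⟨(i, j), hlt⟩) (a := i) (b := j) rfl
    have hi := end_of_mem ht h h1 h2
    have hj := end_of_mem ht h (h1.trans Sym2.eq_swap) h3
    change s(β (Sum.inl (D (ι ⟨(i, j), hlt⟩).1).1), β (Sum.inl (D (ι ⟨(i, j), hlt⟩).1).2)) =
      s(some i, some j)
    rcases hi with hi | hi <;> rcases hj with hj | hj
    · exact absurd (Option.some.inj (hi.symm.trans hj)) hij
    · rw [hi, hj]
    · rw [hi, hj]; exact Sym2.eq_swap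
    · exact absurd (Option.some.inj (hi.symm.trans hj)) hij
  have hinj : Function.Injective fun e => (ι e).1 := by
    intro e e' hee
    have h1 := hends e
    have h2 := hends e'
    simp only at hee
    rw [hee, h2] at h1
    have h3 := Sym2.map.injective (Option.some_injective _) h1
    obtain ⟨⟨i, j⟩, hlt⟩ := e
    obtain ⟨⟨i', j'⟩, hlt'⟩ := e'
    simp only at hlt hlt'
    change s(i', j') = s(i, j) at h3
    rw [Sym2.eq_iff] at h3
    rcases h3 with ⟨h4, h5⟩ | ⟨h4, h5⟩
    · subst h4 h5; rfl
    · subst h4 h5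
      exact absurd (hlt.trans hlt') (lt_irrefl _)
  refine ⟨hinj, hends, fun i => exists_inl ht h i, ?_⟩
  intro x y i hx hy
  have key : ∀ z', Joined (dia D) (range ι) {z | β z = some i} (Sum.inl x) z' →
      (∀ v, z' = Sum.inl v → Joined (und D) (range fun e => (ι e).1)
        {z | β (Sum.inl z) = some i} x v) ∧
      (∀ e y', z' = Sum.inr (e, y') → ∀ w, (w = (D e).1 ∨ w = (D e).2) →
        β (Sum.inl w) = some i → Joined (und D) (range fun e => (ι e).1)
        {z | β (Sum.inl z) = some i} x w) := by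
    intro z' hz'
    induction hz' with
    | refl =>
      refine ⟨?_, ?_⟩
      · intro v hv
        have : x = v := Sum.inl.inj hv
        subst this
        exact Relation.ReflTransGen.refl
      · intro e y' he
        exact absurd he (by simp)
    | @tail b c _ hbc ih =>
      obtain ⟨hb, hc, p, hp, hpe⟩ := hbc
      rcases b with a | ⟨e₁, y₁⟩ <;> rcases c with a' | ⟨e₂, y₂⟩
      · exact absurd hpe (dia_inl_inl D p a a')
      · refine ⟨fun v hv => absurd hv (by simp), ?_⟩
        intro e y' he w hw hwi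
        obtain ⟨h1, h2⟩ := Prod.ext_iff.1 (Sum.inr.inj he)
        simp only at h1 h2
        subst h1 h2
        obtain ⟨h3, h4⟩ := dia_inl_inr D p a e₂ y₂ hpe
        have ha := ih.1 a rfl
        by_cases haw : w = a
        · rw [haw]; exact ha
        · refine ha.trans (Joined.single (e := e₂) ?_ ?_ hb hwi)
          · rintro ⟨e'', he''⟩
            have h5 := hends e''
            simp only at he''
            rw [he''] at h5
            obtain ⟨⟨i', j'⟩, hlt⟩ := e''
            change s(β (Sum.inl (D e₂).1), β (Sum.inl (D e₂).2)) = s(some i', some j') at h5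
            have h6 : β (Sum.inl (D e₂).1) = some i ∧ β (Sum.inl (D e₂).2) = some i := by
              rcases h4 with h4 | h4 <;> rcases hw with hw | hw
              · exact absurd (hw.trans h4.symm) haw
              · exact ⟨h4 ▸ hb, hw ▸ hwi⟩
              · exact ⟨hw ▸ hwi, h4 ▸ hb⟩
              · exact absurd (hw.trans h4.symm) haw
            rw [h6.1, h6.2, Sym2.eq_iff] at h5
            have h7 : i' = j' := by
              rcases h5 with ⟨h8, h9⟩ | ⟨h8, h9⟩
              · exact (Option.some.inj h8).symm.trans (Option.some.inj h9)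
              · exact (Option.some.inj h9).symm.trans (Option.some.inj h8)
            exact absurd h7 (ne_of_lt hlt)
          · change s((D e₂).1, (D e₂).2) = s(a, w)
            rcases h4 with h4 | h4 <;> rcases hw with hw | hw
            · exact absurd (hw.trans h4.symm) haw
            · rw [h4, hw]
            · rw [h4, hw]; exact Sym2.eq_swap
            · exact absurd (hw.trans h4.symm) haw
      · refine ⟨?_, fun e y' he => absurd he (by simp)⟩
        intro v hv
        have : a' = v := Sum.inl.inj hv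
        subst this
        rw [Sym2.eq_swap] at hpe
        obtain ⟨_, h4⟩ := dia_inl_inr D p a' e₁ y₁ hpe
        exact ih.2 e₁ y₁ rfl a' h4 hc
      · refine ⟨fun v hv => absurd hv (by simp), ?_⟩
        intro e y' he w hw hwi
        obtain ⟨h1, h2⟩ := Prod.ext_iff.1 (Sum.inr.inj he)
        simp only at h1 h2
        subst h1 h2
        obtain ⟨_, h4, _⟩ := dia_inr_inr D p e₁ e₂ y₁ y₂ hpe
        subst h4
        exact ih.2 e₂ y₁ rfl w hw hwi
  exact (key _ (h.conn _ _ i hx hy)).1 y rfl

end model

/-- For `t ≥ 5` the class of graphs without a `K_t` minor is closed under diamonds. -/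
theorem completeGra_of_dia {t : ℕ} (ht : 5 ≤ t) (D : Dig V E)
    (h : GMinor (completeGra t) (dia D)) : GMinor (completeGra t) (und D) := by
  obtain ⟨β, ι, h⟩ := h
  exact ⟨_, _, isModel_of_dia ht h⟩

end Pool.Agent.Lib.MP_210493_lc
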