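import Pool.Agent.Lib.MP_210493_lc.DM.Tw

/-! The excluded minors of the underlying class and the members of `A` meet the same classes of
graphs closed under minors and diamonds. -/

namespace Pool.Agent.Lib.MP_210493_lc

open Set

/-- `P` is closed under minors (of finite graphs). -/
def MinorClosed (P : (V E : Type) → Gra V E → Prop) : Prop :=
  ∀ (V' E' V E : Type) [Finite V'] [Finite E'] [Finite V] [Finite E] (G' : Gra V' E')
    (G : Gra V E), GMinor G' G → P V E G → P V' E' G'

/-- `P` is closed under replacing all edges of a finite graph by diamonds. -/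
def DiamondClosed (P : (V E : Type) → Gra V E → Prop) : Prop :=
  ∀ (V E : Type) [Finite V] [Finite E] (D : Dig V E), P V E (und D) → P _ _ (dia D)

/-- The class `P` contains an excluded minor of the underlying class exactly if it contains the
underlying graph of a member of `A`, and every `H ∈ A` with underlying graph in `P` gives such an
excluded minor of size at most `v(H) + 7 e(H)`. -/
def Detects (A : Set Code) (P : (V E : Type) → Gra V E → Prop) : Prop :=
  (∀ (V E : Type) [Finite V] [Finite E] (G : Gra V E), Excluded A G → P V E G →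
    ∃ H ∈ A, P _ _ (und H.arc)) ∧
  ∀ H ∈ A, P _ _ (und H.arc) → ∃ (V E : Type) (_ : Finite V) (_ : Finite E) (G : Gra V E),
    Excluded A G ∧ P V E G ∧ Nat.card V + Nat.card E ≤ H.v + 7 * H.e

theorem GMinor.card_le {V' E' V E : Type} [Finite V] [Finite E] {G' : Gra V' E'} {G : Gra V E}
    (h : GMinor G' G) : Nat.card V' + Nat.card E' ≤ Nat.card V + Nat.card E := by
  obtain ⟨β, ι, h⟩ := h
  choose f hf using h.ne
  have hinj : Function.Injective f := by
    intro a b hab
    have h1 := hf a
    rw [hab, hf b] at h1
    exact (Option.some.inj h1).symm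
  exact Nat.add_le_add (Nat.card_le_card_of_injective f hinj)
    (Nat.card_le_card_of_injective ι h.inj)

theorem detects (A : Set Code) (P : (V E : Type) → Gra V E → Prop) (hP : MinorClosed P)
    (hD : DiamondClosed P) : Detects A P := by
  refine ⟨?_, ?_⟩
  · intro V E _ _ G hG hPG
    obtain ⟨H, hH, hm⟩ := exists_mem_of_not_inClass hG.1
    exact ⟨H, hH, hP _ _ _ _ _ _ hm hPG⟩
  · intro H hH hPH
    obtain ⟨V, E, hV, hE, G, hG, hm⟩ := exists_excluded (A := A) _ _ (dia H.arc)
      (not_inClass_dia hH)
    refine ⟨V, E, hV, hE, G, hG, hP _ _ _ _ _ _ hm (hD _ _ _ hPH), ?_⟩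
    have := hm.card_le
    rw [card_dia H] at this
    exact this

theorem detects_complete (A : Set Code) (t : ℕ) (ht : 5 ≤ t) :
    Detects A fun _ _ G => ¬ GMinor (completeGra t) G := by
  apply detects
  · intro V' E' V E _ _ _ _ G' G hm hG h
    exact hG (h.trans hm)
  · intro V E _ _ D hD h
    exact hD (completeGra_of_dia ht D h)

theorem detects_treeWidth (A : Set Code) (w : ℕ) (hw : 3 ≤ w) :
    Detects A fun _ _ G => TreeWidthLE w G := by
  apply detects
  · intro V' E' V E _ _ _ _ G' G hm hG
    exact hG.minor hm
  · intro V E _ _ D hD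
    exact hD.dia hw D

theorem main_diamond (A : Set Code) :
    (∀ P : (V E : Type) → Gra V E → Prop, MinorClosed P → DiamondClosed P → Detects A P) ∧
    (∀ t : ℕ, 5 ≤ t → Detects A fun _ _ G => ¬ GMinor (completeGra t) G) ∧
    (∀ w : ℕ, 3 ≤ w → Detects A fun _ _ G => TreeWidthLE w G) :=
  ⟨detects A, detects_complete A, detects_treeWidth A⟩

end Pool.Agent.Lib.MP_210493_lc
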