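import Pool.Agent.Lib.MP_210493_lc.DM.Had

/-! Tree-width (defined by elimination orders) does not grow under minors, and the graphs of
tree-width at most `w`, `w ≥ 3`, are closed under diamonds. -/

namespace Pool.Agent.Lib.MP_210493_lc

open Set

/-- `G` has tree-width at most `w`: for some linear order of the vertices (given by an injective
`r`) every vertex `v` has at most `w` later vertices `x` that are joined to `v` by a path whose
inner vertices come before `v`. -/
def TreeWidthLE {V E : Type} (w : ℕ) (G : Gra V E) : Prop :=
  ∃ r : V → ℕ, Function.Injective r ∧ ∀ v : V,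
    Set.encard {x | r v < r x ∧ Joined G ∅ {z | r z < r v ∨ z = v ∨ z = x} v x} ≤ (w : ℕ∞)

variable {V' E' V E : Type}

/-- the first exit from `S` of a path -/
theorem Joined.exit {G : Gra V E} {F : Set E} {S T : Set V} {x y : V}
    (h : Joined G F T x y) (hx : x ∈ S) (hy : y ∉ S) :
    ∃ a b, Joined G F (T ∩ S) x a ∧ a ∈ S ∧ b ∉ S ∧ b ∈ T ∧ ∃ e, e ∉ F ∧ G e = s(a, b) := by
  have key : ∀ c, Joined G F T x c → (c ∈ S ∧ Joined G F (T ∩ S) x c) ∨
      ∃ a b, Joined G F (T ∩ S) x a ∧ a ∈ S ∧ b ∉ S ∧ b ∈ T ∧ ∃ e, e ∉ F ∧ G e = s(a, b) := by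
    intro c hc
    induction hc with
    | refl => exact Or.inl ⟨hx, Relation.ReflTransGen.refl⟩
    | @tail b c _ hbc ih =>
      obtain ⟨h1, h2, e, he, h3⟩ := hbc
      rcases ih with ⟨hb, hj⟩ | ih
      · by_cases hcS : c ∈ S
        · exact Or.inl ⟨hcS, hj.tail ⟨⟨h1, hb⟩, ⟨h2, hcS⟩, e, he, h3⟩⟩
        · exact Or.inr ⟨b, c, hj, hb, hcS, h2, e, he, h3⟩
      · exact Or.inr ih
  rcases key y h with ⟨h1, _⟩ | h1
  · exact absurd h1 hy
  · exact h1

theorem TreeWidthLE.minor [Finite V] {w : ℕ} {G' : Gra V' E'} {G : Gra V E}
    (hm : GMinor G' G) (h : TreeWidthLE w G) : TreeWidthLE w G' := by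
  classical
  obtain ⟨β, ι, hβ⟩ := hm
  obtain ⟨r, hr, hw⟩ := h
  -- the latest vertex of every branch set
  have hmax : ∀ i : V', ∃ m, β m = some i ∧ ∀ z, β z = some i → r z ≤ r m := by
    intro i
    have hfin : {z | β z = some i}.Finite := Set.toFinite _
    obtain ⟨m, hm1, hm2⟩ := Set.exists_max_image {z | β z = some i} r hfin (hβ.ne i)
    exact ⟨m, hm1, hm2⟩
  choose m hm1 hm2 using hmax
  have hinj : Function.Injective fun i => r (m i) := by
    intro i j hij
    have h1 : m i = m j := hr hij
    have h2 := hm1 i
    rw [h1, hm1 j] at h2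
    exact (Option.some.inj h2).symm
  refine ⟨fun i => r (m i), hinj, fun i => ?_⟩
  have hsub : ∀ c : V', (r (m c) < r (m i) ∨ c = i) → ∀ b, β b = some c →
      r b < r (m i) ∨ b = m i := by
    intro c hc b hb
    rcases hc with hc | hc
    · exact Or.inl (lt_of_le_of_lt (hm2 c b hb) hc)
    · subst hc
      rcases lt_or_eq_of_le (hm2 c b hb) with h1 | h1
      · exact Or.inl h1
      · exact Or.inr (hr h1)
  have hfound : ∀ j : V', r (m i) < r (m j) →
      Joined G' ∅ {z | r (m z) < r (m i) ∨ z = i ∨ z = j} i j →
      ∃ x, β x = some j ∧ r (m i) < r x ∧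
        Joined G ∅ {z | r z < r (m i) ∨ z = m i ∨ z = x} (m i) x := by
    intro j hij hj
    have hne : j ≠ i := by
      rintro rfl
      exact lt_irrefl _ hij
    set S : Set V := {z | r z < r (m i) ∨ z = m i} with hS
    have key : ∀ c, Joined G' ∅ {z | r (m z) < r (m i) ∨ z = i ∨ z = j} i c →
        (c ≠ j ∧ ∀ b, β b = some c → Joined G ∅ S (m i) b) ∨
        ∃ x, β x = some j ∧ r (m i) < r x ∧
          Joined G ∅ {z | r z < r (m i) ∨ z = m i ∨ z = x} (m i) x := by
      intro c hc
      induction hc with
      | refl =>
        left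
        refine ⟨hne.symm, fun b hb => ?_⟩
        exact (hβ.conn (m i) b i (hm1 i) hb).mono (empty_subset _)
          (fun z hz => hsub i (Or.inr rfl) z hz)
      | @tail a c _ hbc ih =>
        rcases ih with ⟨haj, ih⟩ | ih
        · obtain ⟨ha2, hc2, e, _, he⟩ := hbc
          obtain ⟨x, y, hxy, hx, hy⟩ := hβ.exists_ends he
          have hxS : x ∈ S := by
            have ha : r (m a) < r (m i) ∨ a = i := by
              rcases ha2 with h1 | h1 | h1
              · exact Or.inl h1
              · exact Or.inr h1
              · exact absurd h1 haj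
            exact hsub a ha x hx
          by_cases hcj : c = j
          · right
            subst hcj
            by_cases hyS : y ∈ S
            · have hmc : m c ∉ S := by
                rintro (h1 | h1)
                · exact absurd hij (not_lt.2 h1.le)
                · rw [h1] at hij
                  exact lt_irrefl _ hij
              obtain ⟨a', b', h1, h2, h3, h4, e', _, h5⟩ :=
                (hβ.conn y (m c) c hy (hm1 c)).exit hyS hmc
              have hb' : r (m i) < r b' := by
                rcases lt_trichotomy (r b') (r (m i)) with h6 | h6 | h6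
                · exact absurd (Or.inl h6) h3
                · exact absurd (Or.inr (hr h6)) h3
                · exact h6
              have hSb : S ⊆ {z | r z < r (m i) ∨ z = m i ∨ z = b'} := by
                rintro z (hz | hz)
                · exact Or.inl hz
                · exact Or.inr (Or.inl hz)
              refine ⟨b', h4, hb', ?_⟩
              refine (((ih x hx).mono subset_rfl hSb).trans
                (Joined.single (e := ι e) (by simp) hxy (hSb hxS) (hSb hyS))).trans
                ((h1.mono (empty_subset _) (inter_subset_right.trans hSb)).trans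
                (Joined.single (e := e') (by simp) h5 (hSb h2) (Or.inr (Or.inr rfl))))
            · have hry : r (m i) < r y := by
                rcases lt_trichotomy (r y) (r (m i)) with h6 | h6 | h6
                · exact absurd (Or.inl h6) hyS
                · exact absurd (Or.inr (hr h6)) hyS
                · exact h6
              have hSb : S ⊆ {z | r z < r (m i) ∨ z = m i ∨ z = y} := by
                rintro z (hz | hz)
                · exact Or.inl hz
                · exact Or.inr (Or.inl hz)
              exact ⟨y, hy, hry, ((ih x hx).mono subset_rfl hSb).trans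
                (Joined.single (e := ι e) (by simp) hxy (hSb hxS) (Or.inr (Or.inr rfl)))⟩
          · left
            have hc3 : r (m c) < r (m i) ∨ c = i := by
              rcases hc2 with h1 | h1 | h1
              · exact Or.inl h1
              · exact Or.inr h1
              · exact absurd h1 hcj
            refine ⟨hcj, fun b hb => ?_⟩
            refine ((ih x hx).trans (Joined.single (e := ι e) (by simp) hxy hxS
              (hsub c hc3 y hy))).trans ?_
            exact (hβ.conn y b c hy hb).mono (empty_subset _) (fun z hz => hsub c hc3 z hz)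
        · exact Or.inr ih
    rcases key j hj with ⟨h1, _⟩ | h1
    · exact absurd rfl h1
    · exact h1
  have : Nonempty V := ⟨m i⟩
  choose! f hf1 hf2 hf3 using hfound
  refine le_trans ?_ (hw (m i))
  refine Set.encard_le_encard_of_injOn (f := f) ?_ ?_
  · rintro j ⟨hj1, hj2⟩
    exact ⟨hf2 j hj1 hj2, hf3 j hj1 hj2⟩
  · rintro j ⟨hj1, hj2⟩ j' ⟨hj1', hj2'⟩ hjj
    have h1 := hf1 j hj1 hj2
    rw [hjj, hf1 j' hj1' hj2'] at h1
    exact (Option.some.inj h1).symm

/-- The graphs of tree-width at most `w`, `w ≥ 3`, are closed under diamonds. -/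
theorem TreeWidthLE.dia [Finite E] {w : ℕ} (hw3 : 3 ≤ w) (D : Dig V E)
    (h : TreeWidthLE w (und D)) : TreeWidthLE w (dia D) := by
  classical
  obtain ⟨r, hr, hw⟩ := h
  obtain ⟨N, ⟨φ⟩⟩ := Finite.exists_equiv_fin (E × Bool)
  let f : E × Bool → ℕ := fun q => (φ q : ℕ)
  have hf : Function.Injective f := Fin.val_injective.comp φ.injective
  have hfN : ∀ q, f q < N := fun q => (φ q).2
  let R : V ⊕ E × Bool → ℕ := Sum.elim (fun v => N + r v) f
  have hRl : ∀ v, R (Sum.inl v) = N + r v := fun v => rfl
  have hRr : ∀ q, R (Sum.inr q) = f q := fun q => rfl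
  refine ⟨R, ?_, ?_⟩
  · rintro (v | q) (v' | q') hvv
    · simp only [hRl] at hvv
      exact congrArg Sum.inl (hr (by omega))
    · simp only [hRl, hRr] at hvv
      have := hfN q'
      omega
    · simp only [hRl, hRr] at hvv
      have := hfN q
      omega
    · simp only [hRr] at hvv
      exact congrArg Sum.inr (hf hvv)
  rintro (v | ⟨e, y⟩)
  · -- a vertex of `D`
    refine le_trans ?_ (hw v)
    have hsub : {x | R (Sum.inl v) < R x ∧ Joined (MP_210493_lc.dia D) ∅
        {z | R z < R (Sum.inl v) ∨ z = Sum.inl v ∨ z = x} (Sum.inl v) x} ⊆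
        Sum.inl '' {x | r v < r x ∧ Joined (und D) ∅ {z | r z < r v ∨ z = v ∨ z = x} v x} := by
      rintro x ⟨hx1, hx2⟩
      rcases x with x | q
      swap
      · simp only [hRl, hRr] at hx1
        have := hfN q
        omega
      refine ⟨x, ⟨by simp only [hRl] at hx1; omega, ?_⟩, rfl⟩
      have hS : ∀ a, (Sum.inl a : V ⊕ E × Bool) ∈
          {z | R z < R (Sum.inl v) ∨ z = Sum.inl v ∨ z = Sum.inl x} →
          a ∈ {z | r z < r v ∨ z = v ∨ z = x} := by
        rintro a (ha | ha | ha)
        · left; simp only [hRl] at ha; omega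
        · exact Or.inr (Or.inl (Sum.inl.inj ha))
        · exact Or.inr (Or.inr (Sum.inl.inj ha))
      have key : ∀ c, Joined (MP_210493_lc.dia D) ∅
          {z | R z < R (Sum.inl v) ∨ z = Sum.inl v ∨ z = Sum.inl x} (Sum.inl v) c →
          (∀ a, c = Sum.inl a → Joined (und D) ∅ {z | r z < r v ∨ z = v ∨ z = x} v a) ∧
          (∀ e y, c = Sum.inr (e, y) → ∃ a, (a = (D e).1 ∨ a = (D e).2) ∧
            a ∈ {z | r z < r v ∨ z = v ∨ z = x} ∧
            Joined (und D) ∅ {z | r z < r v ∨ z = v ∨ z = x} v a) := by
        intro c hc
        induction hc with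
        | refl =>
          refine ⟨fun a ha => ?_, fun e y he => absurd he (by simp)⟩
          have : v = a := Sum.inl.inj ha
          subst this
          exact Relation.ReflTransGen.refl
        | @tail b c _ hbc ih =>
          obtain ⟨hb, hc, p, _, hpe⟩ := hbc
          rcases b with a | ⟨e₁, y₁⟩ <;> rcases c with a' | ⟨e₂, y₂⟩
          · exact absurd hpe (dia_inl_inl D p a a')
          · refine ⟨fun v hv => absurd hv (by simp), ?_⟩
            intro e y' he
            obtain ⟨h1, h2⟩ := Prod.ext_iff.1 (Sum.inr.inj he)
            simp only at h1 h2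
            subst h1 h2
            obtain ⟨h3, h4⟩ := dia_inl_inr D p a e₂ y₂ hpe
            exact ⟨a, h4, hS a hb, ih.1 a rfl⟩
          · refine ⟨?_, fun e y' he => absurd he (by simp)⟩
            intro b' hb'
            have : a' = b' := Sum.inl.inj hb'
            subst this
            rw [Sym2.eq_swap] at hpe
            obtain ⟨_, h4⟩ := dia_inl_inr D p a' e₁ y₁ hpe
            obtain ⟨a, ha1, ha2, ha3⟩ := ih.2 e₁ y₁ rfl
            by_cases haa : a' = a
            · rw [haa]; exact ha3
            · refine ha3.trans (Joined.single (e := e₁) (by simp) ?_ ha2 (hS a' hc))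
              change s((D e₁).1, (D e₁).2) = s(a, a')
              rcases h4 with h4 | h4 <;> rcases ha1 with ha1 | ha1
              · exact absurd (h4.trans ha1.symm) haa
              · rw [h4, ha1]; exact Sym2.eq_swap
              · rw [h4, ha1]
              · exact absurd (h4.trans ha1.symm) haa
          · refine ⟨fun v hv => absurd hv (by simp), ?_⟩
            intro e y' he
            obtain ⟨h1, h2⟩ := Prod.ext_iff.1 (Sum.inr.inj he)
            simp only at h1 h2
            subst h1 h2
            obtain ⟨_, h4, _⟩ := dia_inr_inr D p e₁ e₂ y₁ y₂ hpe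
            subst h4
            exact ih.2 e₂ y₁ rfl
      exact (key _ hx2).1 x rfl
    refine le_trans (Set.encard_le_encard hsub) ?_
    exact Set.encard_image_le _ _
  · -- a new vertex
    have hsub : {x | R (Sum.inr (e, y)) < R x ∧ Joined (MP_210493_lc.dia D) ∅
        {z | R z < R (Sum.inr (e, y)) ∨ z = Sum.inr (e, y) ∨ z = x} (Sum.inr (e, y)) x} ⊆
        (({Sum.inl (D e).1, Sum.inl (D e).2, Sum.inr (e, !y)} : Finset (V ⊕ E × Bool)) :
          Set (V ⊕ E × Bool)) := by
      rintro x ⟨hx1, hx2⟩
      have key : ∀ c, Joined (MP_210493_lc.dia D) ∅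
          {z | R z < R (Sum.inr (e, y)) ∨ z = Sum.inr (e, y) ∨ z = x} (Sum.inr (e, y)) c →
          (∃ y', c = Sum.inr (e, y')) ∨
          (x = Sum.inl (D e).1 ∨ x = Sum.inl (D e).2 ∨ x = Sum.inr (e, !y)) := by
        intro c hc
        induction hc with
        | refl => exact Or.inl ⟨y, rfl⟩
        | @tail b c _ hbc ih =>
          rcases ih with ⟨y₁, rfl⟩ | ih
          · obtain ⟨hb, hc, p, _, hpe⟩ := hbc
            rcases c with a | ⟨e₂, y₂⟩
            · rw [Sym2.eq_swap] at hpe
              obtain ⟨_, h4⟩ := dia_inl_inr D p a e y₁ hpe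
              have hxa : (Sum.inl a : V ⊕ E × Bool) = x := by
                rcases hc with h5 | h5 | h5
                · simp only [hRl, hRr] at h5
                  have := hfN (e, y)
                  omega
                · exact absurd h5 (by simp)
                · exact h5
              right
              rcases h4 with h4 | h4
              · left; rw [← hxa, h4]
              · right; left; rw [← hxa, h4]
            · obtain ⟨_, h4, _⟩ := dia_inr_inr D p e e₂ y₁ y₂ hpe
              subst h4
              exact Or.inl ⟨y₂, rfl⟩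
          · exact Or.inr ih
      have hfin : x = Sum.inl (D e).1 ∨ x = Sum.inl (D e).2 ∨ x = Sum.inr (e, !y) := by
        rcases key x hx2 with ⟨y', hy'⟩ | h1
        · have hne : y' ≠ y := by
            rintro rfl
            rw [hy'] at hx1
            exact lt_irrefl _ hx1
          right; right
          rw [hy']
          have : y' = !y := by
            revert hne
            cases y' <;> cases y <;> simp
          rw [this]
        · exact h1
      simpa using hfin
    refine le_trans (Set.encard_le_encard hsub) ?_
    rw [Set.encard_coe_eq_coe_finsetCard]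
    have h3 : ({Sum.inl (D e).1, Sum.inl (D e).2, Sum.inr (e, !y)} :
        Finset (V ⊕ E × Bool)).card ≤ 3 := Finset.card_le_three
    exact_mod_cast h3.trans hw3

end Pool.Agent.Lib.MP_210493_lc
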